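import Pool.Agent.Helper91.US.Defs2

set_option autoImplicit false

namespace Pool.Agent.US

open Finset Filter Topology
open scoped ContDiff

namespace RecDer

/-! ### elementary facts on the recursion -/

theorem sum_Ioc_split (f : ℕ → ℝ) {k n : ℕ} (hk : k < n) :
    ∑ j ∈ Ioc k n, f j = f (k + 1) + ∑ j ∈ Ioc (k + 1) n, f j := by
  rw [← Finset.sum_Ioc_consecutive f (Nat.le_succ k) (Nat.succ_le_of_lt hk)]
  congr 1
  have : Ioc k (k + 1) = {k + 1} := by
    ext x; simp only [mem_Ioc, mem_singleton]; omega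
  rw [this, sum_singleton]

theorem sum_Ioc_inv_lam (n : ℕ) : ∀ (d k : ℕ), k + d = n →
    ∑ j ∈ Ioc k n, 1 / lam j ≤ 1 / lam k := by
  intro d
  induction d with
  | zero =>
    intro k hk
    have : Ioc k n = ∅ := by
      ext x; simp only [mem_Ioc, notMem_empty, iff_false]; omega
    rw [this, sum_empty]
    have := lam_pos k
    positivity
  | succ d ih =>
    intro k hk
    rw [sum_Ioc_split _ (by omega)]
    have h1 := ih (k + 1) (by omega)
    have h2 := lam_pos k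
    have h3 : 1 / lam (k + 1) = 1 / lam k / 2 := by
      rw [lam_succ]; field_simp
    rw [h3] at h1 ⊢
    linarith

theorem Sk_le_succ (k : ℕ) (y : ℝ) : Sk k y ≤ Sk (k + 1) y := by
  have hk := lam_pos k
  unfold Sk
  rw [lam_succ]
  rcases le_or_gt y 0 with hy | hy
  · rw [sg_eq_one, sg_eq_one]
    · exact (div_nonpos_of_nonpos_of_nonneg hy (by positivity)).trans zero_le_one
    · exact (div_nonpos_of_nonpos_of_nonneg hy hk.le).trans zero_le_one
  · unfold sg
    have : y / (2 * lam k) ≤ y / lam k := by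
      apply div_le_div_of_nonneg_left hy.le hk
      linarith
    have := Real.smoothTransition.monotone (sub_le_sub_right this 1)
    linarith

theorem Sk_anti (k : ℕ) {x y : ℝ} (h : x ≤ y) : Sk k y ≤ Sk k x := by
  unfold Sk sg
  have : x / lam k ≤ y / lam k := div_le_div_of_nonneg_right h (lam_pos k).le
  have := Real.smoothTransition.monotone (sub_le_sub_right this 1)
  linarith

theorem D_gt {n : ℕ} (y : ℕ → ℝ) {k : ℕ} (hk : n ≤ k) : D n y k = 1 := by
  rw [D_eq]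
  have : Ioc k n = ∅ := by
    ext x; simp only [mem_Ioc, notMem_empty, iff_false]; omega
  rw [this, sum_empty, sub_zero]

theorem D_nonneg' (n : ℕ) (y : ℕ → ℝ) : ∀ (d k : ℕ), k + d = n →
    (∀ j, k ≤ j → j ≤ n → 0 ≤ D n y j) := by
  intro d
  induction d with
  | zero =>
    intro k hk j hj hj'
    rw [D_gt y (by omega)]; exact zero_le_one
  | succ d ih =>
    intro k hk
    have ih' := ih (k + 1) (by omega)
    intro j hj hj'
    rcases Nat.lt_or_ge k j with h | h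
    · exact ih' j h hj'
    · have : j = k := by omega
      subst this
      have h1 := D_eq n y j
      have h2 := D_eq n y (j + 1)
      rw [sum_Ioc_split _ (by omega)] at h1
      have h3 : Sk j (y (j + 1)) * D n y (j + 1) ≤ D n y (j + 1) :=
        mul_le_of_le_one_left (ih' _ le_rfl (by omega)) (Sk_le_one _ _)
      have h4 : ∑ i ∈ Ioc (j + 1) n, Sk j (y i) * D n y i ≤
          ∑ i ∈ Ioc (j + 1) n, Sk (j + 1) (y i) * D n y i := by
        apply sum_le_sum
        intro i hi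
        have := mem_Ioc.1 hi
        exact mul_le_mul_of_nonneg_right (Sk_le_succ _ _) (ih' i (by omega) (by omega))
      linarith

theorem D_nonneg (n : ℕ) (y : ℕ → ℝ) (k : ℕ) : 0 ≤ D n y k := by
  rcases Nat.lt_or_ge n k with h | h
  · rw [D_gt y h.le]; exact zero_le_one
  · exact D_nonneg' n y (n - k) k (by omega) k le_rfl h

theorem sum_D_small (n : ℕ) (y : ℕ → ℝ) (k : ℕ) :
    ∑ j ∈ (Ioc k n).filter (fun j => y j < 2 * lam k), D n y j ≤ 1 := by
  rw [sum_filter]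
  rcases Nat.lt_or_ge k n with h | h
  · rw [sum_Ioc_split _ h]
    have h2 := D_eq n y (k + 1)
    have h3 : (if y (k + 1) < 2 * lam k then D n y (k + 1) else 0) ≤ D n y (k + 1) := by
      split_ifs
      · exact le_rfl
      · exact D_nonneg _ _ _
    have h4 : ∑ j ∈ Ioc (k + 1) n, (if y j < 2 * lam k then D n y j else 0) ≤
        ∑ i ∈ Ioc (k + 1) n, Sk (k + 1) (y i) * D n y i := by
      apply sum_le_sum
      intro i hi
      split_ifs with hh
      · rw [Sk_eq_one (by rw [lam_succ]; exact hh.le), one_mul]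
      · exact mul_nonneg (Sk_nonneg _ _) (D_nonneg _ _ _)
    linarith
  · have : Ioc k n = ∅ := by
      ext x; simp only [mem_Ioc, notMem_empty, iff_false]; omega
    rw [this, sum_empty]; exact zero_le_one

theorem G_succ {n : ℕ} (y : ℕ → ℝ) {k : ℕ} (hk : k ≤ n) :
    G n y k = D n y k + G n y (k + 1) := by
  unfold G
  have : Icc k n = insert k (Icc (k + 1) n) := by
    ext x; simp only [mem_Icc, mem_insert]; omega
  rw [this, sum_insert (by simp)]

theorem G_gt {n : ℕ} (y : ℕ → ℝ) {k : ℕ} (hk : n < k) : G n y k = 0 := by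
  unfold G
  have : Icc k n = ∅ := by
    ext x; simp only [mem_Icc, notMem_empty, iff_false]; omega
  rw [this, sum_empty]

/-- Abel summation bound. -/
theorem abel_aux (n : ℕ) (s a : ℕ → ℝ) (b : ℝ) (K : ℕ)
    (hs : ∀ j, j < n → s (j + 1) ≤ s j) (hs0 : ∀ j, 0 ≤ s j)
    (ha : ∀ j, K < j → j ≤ n → |a j| ≤ b) (hb : 0 ≤ b) (ha' : a (n + 1) = 0) :
    ∀ (d k : ℕ), k + d = n → K ≤ k → ∀ x : ℝ, 0 ≤ x → (k < n → s (k + 1) ≤ x) →
      |x * a (k + 1) - ∑ j ∈ Ioc k n, s j * (a j - a (j + 1))| ≤ x * b := by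
  intro d
  induction d with
  | zero =>
    intro k hk hK x hx _
    have h1 : Ioc k n = ∅ := by
      ext x; simp only [mem_Ioc, notMem_empty, iff_false]; omega
    have h2 : k = n := by omega
    rw [h1, sum_empty, h2, ha']
    simp only [mul_zero, sub_zero, abs_zero]
    positivity
  | succ d ih =>
    intro k hk hK x hx hxs
    have hkn : k < n := by omega
    rw [sum_Ioc_split _ hkn]
    have h1 := ih (k + 1) (by omega) (by omega) (s (k + 1)) (hs0 _) (fun h => hs _ h)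
    have h2 := ha (k + 1) (by omega) (by omega)
    have h3 := hxs hkn
    have e : x * a (k + 1) - (s (k + 1) * (a (k + 1) - a (k + 1 + 1)) +
        ∑ j ∈ Ioc (k + 1) n, s j * (a j - a (j + 1))) =
        (x - s (k + 1)) * a (k + 1) + (s (k + 1) * a (k + 1 + 1) -
          ∑ j ∈ Ioc (k + 1) n, s j * (a j - a (j + 1))) := by ring
    rw [e]
    refine (abs_add_le _ _).trans ?_
    rw [abs_mul, abs_of_nonneg (sub_nonneg.2 h3)]
    have h4 : (x - s (k + 1)) * |a (k + 1)| ≤ (x - s (k + 1)) * b :=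
      mul_le_mul_of_nonneg_left h2 (sub_nonneg.2 h3)
    linarith

/-- the downward induction. -/
theorem down (n : ℕ) (g : ℕ → ℝ) (s : ℕ → ℕ → ℝ) (E : ℝ) (hE : 0 ≤ E) (hg : g (n + 1) = 0)
    (hs : ∀ k j, j < n → s k (j + 1) ≤ s k j) (hs0 : ∀ k j, 0 ≤ s k j) (hs1 : ∀ k j, s k j ≤ 1)
    (h : ∀ k ≤ n, |g k - (g (k + 1) - ∑ j ∈ Ioc k n, s k j * (g j - g (j + 1)))| ≤ E / lam k) :
    ∀ k ≤ n + 1, |g k| ≤ 2 * E / lam k := by
  have key : ∀ (d k : ℕ), k + d = n + 1 → ∀ j, k ≤ j → j ≤ n + 1 → |g j| ≤ 2 * E / lam j := by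
    intro d
    induction d with
    | zero =>
      intro k hk j hj hj'
      have : j = n + 1 := by omega
      rw [this, hg, abs_zero]
      have := lam_pos (n + 1)
      positivity
    | succ d ih =>
      intro k hk j hj hj'
      have ih' := ih (k + 1) (by omega)
      rcases Nat.lt_or_ge k j with h1 | h1
      · exact ih' j h1 hj'
      · have hjk : j = k := by omega
        subst hjk
        have hj0 := lam_pos j
        have hb : 2 * E / lam (j + 1) = E / lam j := by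
          rw [lam_succ]; field_simp
        have hbb : ∀ i, j < i → i ≤ n → |g i| ≤ E / lam j := by
          intro i hi hi'
          refine (ih' i hi (by omega)).trans ?_
          rw [← hb]
          exact div_le_div_of_nonneg_left (by positivity) (lam_pos _) (lam_mono (by omega))
        have h2 := abel_aux n (s j) g (E / lam j) j (hs j) (hs0 j) hbb (by positivity) hg
          (n - j) j (by omega) le_rfl 1 zero_le_one (fun _ => hs1 _ _)
        rw [one_mul, one_mul] at h2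
        have h3 := h j (by omega)
        have h4 : g j = (g j - (g (j + 1) - ∑ i ∈ Ioc j n, s j i * (g i - g (i + 1)))) +
          (g (j + 1) - ∑ i ∈ Ioc j n, s j i * (g i - g (i + 1))) := by ring
        rw [h4]
        refine (abs_add_le _ _).trans ?_
        have : 2 * E / lam j = E / lam j + E / lam j := by ring
        rw [this]
        exact add_le_add h3 h2
  intro k hk
  exact key (n + 1 - k) k (by omega) k le_rfl hk

/-! ### derivatives of the cutoff -/

theorem sg_contDiff : ContDiff ℝ ∞ sg := by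
  unfold sg
  exact contDiff_const.sub (Real.smoothTransition.contDiff.comp (contDiff_id.sub contDiff_const))

theorem Sk_contDiff (k : ℕ) : ContDiff ℝ ∞ (Sk k) := by
  unfold Sk
  exact sg_contDiff.comp (contDiff_id.div_const _)

theorem sg_deriv_zero {l : ℕ} (hl : 1 ≤ l) {x : ℝ} (hx : x < 1 ∨ 2 ≤ x) :
    iteratedDeriv l sg x = 0 := by
  have hne : l ≠ 0 := by omega
  rcases hx with hx | hx
  · have h : sg =ᶠ[𝓝 x] fun _ => (1 : ℝ) := by
      filter_upwards [Iio_mem_nhds hx] with t ht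
      exact sg_eq_one (le_of_lt ht)
    have := (h.iteratedDeriv l).eq_of_nhds
    rw [this, iteratedDeriv_const]
    simp [hne]
  · have hcont : Continuous (iteratedDeriv l sg) :=
      sg_contDiff.continuous_iteratedDeriv l (by exact_mod_cast le_top)
    have hclosed : IsClosed {x : ℝ | iteratedDeriv l sg x = 0} :=
      isClosed_eq hcont continuous_const
    have hsub : Set.Ioi (2 : ℝ) ⊆ {x : ℝ | iteratedDeriv l sg x = 0} := by
      intro z hz
      have h : sg =ᶠ[𝓝 z] fun _ => (0 : ℝ) := by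
        filter_upwards [Ioi_mem_nhds hz] with t ht
        exact sg_eq_zero (le_of_lt ht)
      have := (h.iteratedDeriv l).eq_of_nhds
      change iteratedDeriv l sg z = 0
      rw [this, iteratedDeriv_const]
      simp
    have h2 := (hclosed.closure_subset_iff).2 hsub
    rw [closure_Ioi] at h2
    exact h2 hx

theorem sg_deriv_bound : ∃ σ : ℝ, 0 ≤ σ ∧ ∀ l : ℕ, 1 ≤ l → l ≤ 3 → ∀ x : ℝ,
    |iteratedDeriv l sg x| ≤ σ := by
  have h : ∀ l : ℕ, 1 ≤ l → ∃ σ : ℝ, 0 ≤ σ ∧ ∀ x : ℝ, |iteratedDeriv l sg x| ≤ σ := by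
    intro l hl
    have hcont : Continuous (iteratedDeriv l sg) :=
      sg_contDiff.continuous_iteratedDeriv l (by exact_mod_cast le_top)
    obtain ⟨B, hB⟩ := (isCompact_Icc (a := (1 : ℝ)) (b := 2)).exists_bound_of_continuousOn
      hcont.continuousOn
    refine ⟨max B 0, le_max_right _ _, fun x => ?_⟩
    by_cases hx : x ∈ Set.Icc (1 : ℝ) 2
    · exact (hB x hx).trans (le_max_left _ _)
    · rw [sg_deriv_zero hl, abs_zero]
      · exact le_max_right _ _
      · rw [Set.mem_Icc, not_and_or, not_le, not_le] at hx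
        rcases hx with hx | hx
        · exact Or.inl hx
        · exact Or.inr hx.le
  obtain ⟨a, ha, ha'⟩ := h 1 le_rfl
  obtain ⟨b, hb, hb'⟩ := h 2 (by norm_num)
  obtain ⟨c, hc, hc'⟩ := h 3 (by norm_num)
  refine ⟨a + b + c, by positivity, fun l hl hl' x => ?_⟩
  interval_cases l
  · linarith [ha' x]
  · linarith [hb' x]
  · linarith [hc' x]

theorem Sk_iteratedDeriv (k l : ℕ) (x : ℝ) :
    iteratedDeriv l (Sk k) x = (1 / lam k) ^ l * iteratedDeriv l sg (x / lam k) := by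
  have h := iteratedDeriv_comp_const_mul (n := l) (f := sg)
    (sg_contDiff.of_le (by exact_mod_cast le_top)) (1 / lam k)
  have h2 : Sk k = fun x => sg (1 / lam k * x) := by
    funext x; unfold Sk; congr 1; ring
  rw [h2, h]
  simp only
  congr 2
  ring

theorem Sk_deriv_bound {σ : ℝ} (h : ∀ l : ℕ, 1 ≤ l → l ≤ 3 → ∀ x : ℝ,
    |iteratedDeriv l sg x| ≤ σ) (k : ℕ) {l : ℕ} (hl : 1 ≤ l) (hl' : l ≤ 3) (x : ℝ) :
    |iteratedDeriv l (Sk k) x| ≤ 12 * σ / lam k := by
  rw [Sk_iteratedDeriv, abs_mul, abs_of_nonneg (by have := lam_pos k; positivity)]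
  have h1 := h l hl hl' (x / lam k)
  have hk := lam_pos k
  have hk3 := three_tenths_le_lam k
  have hi : 1 / lam k ≤ 10 / 3 := by
    rw [div_le_div_iff₀ hk (by norm_num)]; linarith
  have hi0 : 0 ≤ 1 / lam k := by positivity
  have h2 : (1 / lam k) ^ l ≤ 12 / lam k := by
    have e : 12 / lam k = 12 * (1 / lam k) := by ring
    rw [e]
    interval_cases l
    · nlinarith
    · nlinarith
    · have h3 : (1 / lam k) ^ 2 ≤ 12 := by nlinarith
      calc (1 / lam k) ^ 3 = (1 / lam k) ^ 2 * (1 / lam k) := by ring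
        _ ≤ 12 * (1 / lam k) := mul_le_mul_of_nonneg_right h3 hi0
  calc (1 / lam k) ^ l * |iteratedDeriv l sg (x / lam k)| ≤ 12 / lam k * σ :=
        mul_le_mul h2 h1 (abs_nonneg _) (by positivity)
    _ = 12 * σ / lam k := by ring

theorem Sk_deriv_zero (k : ℕ) {l : ℕ} (hl : 1 ≤ l) {x : ℝ} (hx : 2 * lam k ≤ x) :
    iteratedDeriv l (Sk k) x = 0 := by
  rw [Sk_iteratedDeriv, sg_deriv_zero hl, mul_zero]
  right
  rw [le_div_iff₀ (lam_pos k)]; exact hx

/-! ### the chain rule up to order three -/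

theorem comp_contDiffAt {s y : ℝ → ℝ} {m : ℕ∞} {N : WithTop ℕ∞} (hs : ContDiff ℝ ∞ s) (hN : N = m)
    (hy : ContDiffAt ℝ N y 0) : ContDiffAt ℝ N (fun t => s (y t)) 0 := by
  subst hN
  exact (hs.of_le (by exact_mod_cast le_top)).contDiffAt.comp 0 hy

theorem deriv_comp_eventually {s y : ℝ → ℝ} (hs : ContDiff ℝ ∞ s) (hy : ContDiffAt ℝ 1 y 0) :
    deriv (fun t => s (y t)) =ᶠ[𝓝 0] fun t => deriv s (y t) * deriv y t := by
  have h := hy.eventually (by simp)
  filter_upwards [h] with t ht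
  have h1 : HasDerivAt y (deriv y t) t := (ht.differentiableAt (by norm_num)).hasDerivAt
  have h2 : HasDerivAt s (deriv s (y t)) (y t) :=
    ((hs.differentiable (by simp)) (y t)).hasDerivAt
  exact (h2.comp t h1).deriv

theorem deriv_contDiff {s : ℝ → ℝ} (hs : ContDiff ℝ ∞ s) : ContDiff ℝ ∞ (deriv s) := by
  have : ContDiff ℝ (∞ + 1) s := by simpa using hs
  exact (contDiff_succ_iff_deriv.1 this).2.2

theorem deriv_contDiffAt {y : ℝ → ℝ} {m : ℕ} (hy : ContDiffAt ℝ (m + 1 : ℕ) y 0) :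
    ContDiffAt ℝ m (deriv y) 0 := by
  have h : ContDiffAt ℝ m (fderiv ℝ y) 0 := hy.fderiv_right (by norm_cast)
  exact h.clm_apply (contDiffAt_const (c := (1 : ℝ)))

theorem comp_d1 {s y : ℝ → ℝ} (hs : ContDiff ℝ ∞ s) (hy : ContDiffAt ℝ 1 y 0) :
    iteratedDeriv 1 (fun t => s (y t)) 0 = iteratedDeriv 1 s (y 0) * iteratedDeriv 1 y 0 := by
  rw [iteratedDeriv_one, iteratedDeriv_one, iteratedDeriv_one]
  exact (deriv_comp_eventually hs hy).eq_of_nhds

theorem comp_d2 {s y : ℝ → ℝ} (hs : ContDiff ℝ ∞ s) (hy : ContDiffAt ℝ 2 y 0) :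
    iteratedDeriv 2 (fun t => s (y t)) 0 =
      iteratedDeriv 2 s (y 0) * iteratedDeriv 1 y 0 ^ 2 +
        iteratedDeriv 1 s (y 0) * iteratedDeriv 2 y 0 := by
  have hy1 : ContDiffAt ℝ 1 y 0 := hy.of_le (by norm_num)
  have hdy : ContDiffAt ℝ (1 : ℕ) (deriv y) 0 := deriv_contDiffAt (m := 1) (by exact_mod_cast hy)
  have hds := deriv_contDiff hs
  have h1 : iteratedDeriv 2 (fun t => s (y t)) 0 =
      iteratedDeriv 1 (deriv (fun t => s (y t))) 0 := by rw [iteratedDeriv_succ']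
  rw [h1, ((deriv_comp_eventually hs hy1).iteratedDeriv 1).eq_of_nhds,
    iteratedDeriv_fun_mul (comp_contDiffAt (m := 1) hds (by simp) (by exact_mod_cast hy1)) hdy]
  simp only [sum_range_succ, sum_range_zero, iteratedDeriv_zero, Nat.choose_zero_right,
    Nat.choose_self, Nat.sub_zero, Nat.sub_self, Nat.cast_one, one_mul, zero_add]
  rw [comp_d1 hds hy1]
  have e1 : iteratedDeriv 1 (deriv y) 0 = iteratedDeriv 2 y 0 := by rw [← iteratedDeriv_succ']
  have e2 : iteratedDeriv 1 (deriv s) (y 0) = iteratedDeriv 2 s (y 0) := by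
    rw [← iteratedDeriv_succ']
  rw [e1, e2, iteratedDeriv_one, iteratedDeriv_one]
  ring

theorem comp_d3 {s y : ℝ → ℝ} (hs : ContDiff ℝ ∞ s) (hy : ContDiffAt ℝ 3 y 0) :
    iteratedDeriv 3 (fun t => s (y t)) 0 =
      iteratedDeriv 3 s (y 0) * iteratedDeriv 1 y 0 ^ 3 +
        3 * iteratedDeriv 2 s (y 0) * iteratedDeriv 1 y 0 * iteratedDeriv 2 y 0 +
        iteratedDeriv 1 s (y 0) * iteratedDeriv 3 y 0 := by
  have hy1 : ContDiffAt ℝ 1 y 0 := hy.of_le (by norm_num)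
  have hy2 : ContDiffAt ℝ 2 y 0 := hy.of_le (by norm_num)
  have hdy : ContDiffAt ℝ (2 : ℕ) (deriv y) 0 := deriv_contDiffAt (m := 2) (by exact_mod_cast hy)
  have hds := deriv_contDiff hs
  have h1 : iteratedDeriv 3 (fun t => s (y t)) 0 =
      iteratedDeriv 2 (deriv (fun t => s (y t))) 0 := by rw [iteratedDeriv_succ']
  rw [h1, ((deriv_comp_eventually hs hy1).iteratedDeriv 2).eq_of_nhds,
    iteratedDeriv_fun_mul (comp_contDiffAt (m := 2) hds (by simp) (by exact_mod_cast hy2)) hdy]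
  simp only [sum_range_succ, sum_range_zero, iteratedDeriv_zero, Nat.choose_zero_right,
    Nat.choose_self, Nat.sub_zero, Nat.sub_self, Nat.cast_one, one_mul, zero_add]
  rw [comp_d1 hds hy1, comp_d2 hds hy2]
  have e1 : iteratedDeriv 1 (deriv y) 0 = iteratedDeriv 2 y 0 := by rw [← iteratedDeriv_succ']
  have e1' : iteratedDeriv 2 (deriv y) 0 = iteratedDeriv 3 y 0 := by rw [← iteratedDeriv_succ']
  have e2 : iteratedDeriv 1 (deriv s) (y 0) = iteratedDeriv 2 s (y 0) := by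
    rw [← iteratedDeriv_succ']
  have e2' : iteratedDeriv 2 (deriv s) (y 0) = iteratedDeriv 3 s (y 0) := by
    rw [← iteratedDeriv_succ']
  have c1 : Nat.choose 2 1 = 2 := rfl
  have c2 : (2 - 1 : ℕ) = 1 := rfl
  rw [c1, c2, e1, e1', e2, e2', iteratedDeriv_one, iteratedDeriv_one]
  push_cast
  ring

theorem comp_bound {σ : ℝ} (hσ : 0 ≤ σ) (h : ∀ l : ℕ, 1 ≤ l → l ≤ 3 → ∀ x : ℝ,
    |iteratedDeriv l sg x| ≤ σ) (k : ℕ) {y : ℝ → ℝ} {a : ℝ} (ha : 0 ≤ a)
    (hy : ContDiffAt ℝ 3 y 0) (h1 : |iteratedDeriv 1 y 0| ≤ 2 * a)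
    (h2 : |iteratedDeriv 2 y 0| ≤ 2 * a ^ 2) (h3 : |iteratedDeriv 3 y 0| ≤ 4 * a ^ 3)
    {l : ℕ} (hl : 1 ≤ l) (hl' : l ≤ 3) :
    |iteratedDeriv l (fun t => Sk k (y t)) 0| ≤ 288 * σ * a ^ l / lam k := by
  have hk := lam_pos k
  have hB : ∀ l : ℕ, 1 ≤ l → l ≤ 3 → |iteratedDeriv l (Sk k) (y 0)| ≤ 12 * σ / lam k :=
    fun l hl hl' => Sk_deriv_bound h k hl hl' _
  have b1 := hB 1 le_rfl (by norm_num)
  have b2 := hB 2 (by norm_num) (by norm_num)
  have b3 := hB 3 (by norm_num) (by norm_num)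
  set B := 12 * σ / lam k with hBdef
  have hB0 : 0 ≤ B := by positivity
  have e : ∀ l : ℕ, 288 * σ * a ^ l / lam k = 24 * (B * a ^ l) := by
    intro l; rw [hBdef]; ring
  rw [e]
  interval_cases l
  · rw [comp_d1 (Sk_contDiff k) (hy.of_le (by norm_num)), abs_mul]
    calc _ ≤ B * (2 * a) := mul_le_mul b1 h1 (abs_nonneg _) hB0
      _ ≤ 24 * (B * a ^ 1) := by
        have := mul_nonneg hB0 ha
        linarith
  · rw [comp_d2 (Sk_contDiff k) (hy.of_le (by norm_num))]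
    refine (abs_add_le _ _).trans ?_
    rw [abs_mul, abs_mul, abs_pow]
    have t1 : |iteratedDeriv 2 (Sk k) (y 0)| * |iteratedDeriv 1 y 0| ^ 2 ≤ B * (2 * a) ^ 2 := by
      gcongr
    have t2 : |iteratedDeriv 1 (Sk k) (y 0)| * |iteratedDeriv 2 y 0| ≤ B * (2 * a ^ 2) := by
      gcongr
    have := mul_nonneg hB0 (pow_nonneg ha 2)
    linarith
  · rw [comp_d3 (Sk_contDiff k) hy]
    refine (abs_add_le _ _).trans ?_
    refine (add_le_add_left (abs_add_le _ _) _).trans ?_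
    rw [abs_mul, abs_mul, abs_mul, abs_mul, abs_mul, abs_pow, abs_of_pos (by norm_num : (0:ℝ) < 3)]
    have t1 : |iteratedDeriv 3 (Sk k) (y 0)| * |iteratedDeriv 1 y 0| ^ 3 ≤ B * (2 * a) ^ 3 := by
      gcongr
    have t2 : 3 * |iteratedDeriv 2 (Sk k) (y 0)| * |iteratedDeriv 1 y 0| * |iteratedDeriv 2 y 0| ≤
        3 * B * (2 * a) * (2 * a ^ 2) := by
      gcongr
    have t3 : |iteratedDeriv 1 (Sk k) (y 0)| * |iteratedDeriv 3 y 0| ≤ B * (4 * a ^ 3) := by
      gcongr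
    have := mul_nonneg hB0 (pow_nonneg ha 3)
    linarith

theorem comp_zero (k : ℕ) {y : ℝ → ℝ} (hy : ContDiffAt ℝ 3 y 0) (hx : 2 * lam k ≤ y 0)
    {l : ℕ} (hl : 1 ≤ l) (hl' : l ≤ 3) :
    iteratedDeriv l (fun t => Sk k (y t)) 0 = 0 := by
  have b1 := Sk_deriv_zero k (l := 1) le_rfl hx
  have b2 := Sk_deriv_zero k (l := 2) (by norm_num) hx
  have b3 := Sk_deriv_zero k (l := 3) (by norm_num) hx
  interval_cases l
  · rw [comp_d1 (Sk_contDiff k) (hy.of_le (by norm_num)), b1]; ring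
  · rw [comp_d2 (Sk_contDiff k) (hy.of_le (by norm_num)), b1, b2]; ring
  · rw [comp_d3 (Sk_contDiff k) hy, b1, b2, b3]; ring

/-! ### smoothness of the recursion -/

theorem SkComp_contDiffAt (k : ℕ) {y : ℝ → ℝ} (hy : ContDiffAt ℝ 3 y 0) :
    ContDiffAt ℝ 3 (fun t => Sk k (y t)) 0 :=
  comp_contDiffAt (m := 3) (Sk_contDiff k) (by norm_cast) hy

theorem D_contDiffAt (n : ℕ) (y : ℕ → ℝ → ℝ) (hy : ∀ j ≤ n, ContDiffAt ℝ 3 (y j) 0) :
    ∀ d k : ℕ, n ≤ k + d → ContDiffAt ℝ 3 (fun t => D n (fun j => y j t) k) 0 := by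
  intro d
  induction d with
  | zero =>
    intro k hk
    have : (fun t => D n (fun j => y j t) k) = fun _ => (1 : ℝ) := by
      funext t; exact D_gt _ (by omega)
    rw [this]; exact contDiffAt_const
  | succ d ih =>
    intro k hk
    have : (fun t => D n (fun j => y j t) k) =
        fun t => 1 - ∑ j ∈ Ioc k n, Sk k (y j t) * D n (fun j => y j t) j := by
      funext t; exact D_eq _ _ _
    rw [this]
    refine contDiffAt_const.sub (ContDiffAt.sum fun j hj => ?_)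
    have hj' := mem_Ioc.1 hj
    exact (SkComp_contDiffAt k (hy j hj'.2)).mul (ih j (by omega))

theorem G_contDiffAt (n : ℕ) (y : ℕ → ℝ → ℝ) (hy : ∀ j ≤ n, ContDiffAt ℝ 3 (y j) 0) (k : ℕ) :
    ContDiffAt ℝ 3 (fun t => G n (fun j => y j t) k) 0 := by
  unfold G
  exact ContDiffAt.sum fun j _ => D_contDiffAt n y hy n j (by omega)

theorem G_eq {n : ℕ} (y : ℕ → ℝ) {k : ℕ} (hk : k ≤ n) :
    G n y k = (1 + G n y (k + 1)) -
      ∑ j ∈ Ioc k n, Sk k (y j) * (G n y j - G n y (j + 1)) := by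
  rw [G_succ y hk, D_eq n y k]
  have : ∑ j ∈ Ioc k n, Sk k (y j) * (G n y j - G n y (j + 1)) =
      ∑ j ∈ Ioc k n, Sk k (y j) * D n y j := by
    apply sum_congr rfl
    intro j hj
    rw [G_succ y (mem_Ioc.1 hj).2]; ring
  rw [this]; ring

theorem G_iter (n : ℕ) (y : ℕ → ℝ → ℝ) (hy : ∀ j ≤ n, ContDiffAt ℝ 3 (y j) 0) {k : ℕ}
    (hk : k ≤ n) {r : ℕ} (hr : 1 ≤ r) (hr' : r ≤ 3) :
    iteratedDeriv r (fun t => G n (fun j => y j t) k) 0 =
      iteratedDeriv r (fun t => G n (fun j => y j t) (k + 1)) 0 -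
      ∑ j ∈ Ioc k n, ∑ i ∈ range (r + 1), (r.choose i : ℝ) *
        iteratedDeriv i (fun t => Sk k (y j t)) 0 *
        (iteratedDeriv (r - i) (fun t => G n (fun j => y j t) j) 0 -
          iteratedDeriv (r - i) (fun t => G n (fun j => y j t) (j + 1)) 0) := by
  have hle : ∀ {f : ℝ → ℝ} (i : ℕ), i ≤ 3 → ContDiffAt ℝ 3 f 0 → ContDiffAt ℝ i f 0 := by
    intro f i hi hf
    exact hf.of_le (by exact_mod_cast hi)
  have hG := G_contDiffAt n y hy
  have e : (fun t => G n (fun j => y j t) k) = fun t => (1 + G n (fun j => y j t) (k + 1)) -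
      ∑ j ∈ Ioc k n, Sk k (y j t) * (G n (fun j => y j t) j - G n (fun j => y j t) (j + 1)) := by
    funext t; exact G_eq _ hk
  have hS : ∀ j ∈ Ioc k n, ContDiffAt ℝ 3 (fun t => Sk k (y j t)) 0 :=
    fun j hj => SkComp_contDiffAt k (hy j (mem_Ioc.1 hj).2)
  have hprod : ∀ j ∈ Ioc k n, ContDiffAt ℝ 3 (fun t => Sk k (y j t) *
      (G n (fun j => y j t) j - G n (fun j => y j t) (j + 1))) 0 :=
    fun j hj => (hS j hj).mul ((hG j).sub (hG (j + 1)))
  rw [e, iteratedDeriv_fun_sub (hle r hr' (contDiffAt_const.add (hG _)))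
    (hle r hr' (ContDiffAt.sum hprod)), iteratedDeriv_const_add hr,
    iteratedDeriv_fun_sum (fun j hj => hle r hr' (hprod j hj))]
  congr 1
  apply sum_congr rfl
  intro j hj
  rw [iteratedDeriv_fun_mul (hle r hr' (hS j hj)) (hle r hr' ((hG j).sub (hG (j + 1))))]
  apply sum_congr rfl
  intro i hi
  have hi' : r - i ≤ 3 := by omega
  rw [iteratedDeriv_fun_sub (hle _ hi' (hG j)) (hle _ hi' (hG (j + 1)))]

theorem sumD {n : ℕ} (y0 : ℕ → ℝ) (k : ℕ) (A : ℕ → ℝ) {X : ℝ} (hX : 0 ≤ X)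
    (hA : ∀ j ∈ Ioc k n, |A j| ≤ X) (hA0 : ∀ j ∈ Ioc k n, 2 * lam k ≤ y0 j → A j = 0) :
    |∑ j ∈ Ioc k n, A j * D n y0 j| ≤ X := by
  calc |∑ j ∈ Ioc k n, A j * D n y0 j| ≤ ∑ j ∈ Ioc k n, |A j * D n y0 j| :=
        abs_sum_le_sum_abs _ _
    _ ≤ ∑ j ∈ Ioc k n, (if y0 j < 2 * lam k then X * D n y0 j else 0) := by
        apply sum_le_sum
        intro j hj
        rw [abs_mul, abs_of_nonneg (D_nonneg n y0 j)]
        split_ifs with h
        · exact mul_le_mul_of_nonneg_right (hA j hj) (D_nonneg n y0 j)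
        · rw [hA0 j hj (not_lt.1 h), abs_zero, zero_mul]
    _ = X * ∑ j ∈ (Ioc k n).filter (fun j => y0 j < 2 * lam k), D n y0 j := by
        rw [← sum_filter, mul_sum]
    _ ≤ X * 1 := mul_le_mul_of_nonneg_left (sum_D_small n y0 k) hX
    _ = X := mul_one X

theorem sumG {n : ℕ} (k : ℕ) (A B : ℕ → ℝ) {X Z : ℝ} (hX : 0 ≤ X) (hZ : 0 ≤ Z)
    (hA : ∀ j ∈ Ioc k n, |A j| ≤ X / lam k) (hB : ∀ j ∈ Ioc k n, |B j| ≤ Z / lam j) :
    |∑ j ∈ Ioc k n, A j * B j| ≤ 10 / 3 * (X * Z) / lam k := by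
  have hk := lam_pos k
  have h3 := three_tenths_le_lam k
  have h1 : ∑ j ∈ Ioc k n, 1 / lam j ≤ 1 / lam k := by
    rcases Nat.lt_or_ge n k with h | h
    · have : Ioc k n = ∅ := by
        ext x; simp only [mem_Ioc, notMem_empty, iff_false]; omega
      rw [this, sum_empty]; positivity
    · exact sum_Ioc_inv_lam n (n - k) k (by omega)
  have hi : 1 / lam k ≤ 10 / 3 := by
    rw [div_le_div_iff₀ hk (by norm_num)]; linarith
  calc |∑ j ∈ Ioc k n, A j * B j| ≤ ∑ j ∈ Ioc k n, |A j * B j| := abs_sum_le_sum_abs _ _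
    _ ≤ ∑ j ∈ Ioc k n, X / lam k * Z * (1 / lam j) := by
        apply sum_le_sum
        intro j hj
        rw [abs_mul]
        calc |A j| * |B j| ≤ X / lam k * (Z / lam j) :=
              mul_le_mul (hA j hj) (hB j hj) (abs_nonneg _) (by positivity)
          _ = X / lam k * Z * (1 / lam j) := by ring
    _ = X / lam k * Z * ∑ j ∈ Ioc k n, 1 / lam j := by rw [mul_sum]
    _ ≤ X / lam k * Z * (10 / 3) :=
        mul_le_mul_of_nonneg_left (h1.trans hi) (by positivity)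
    _ = 10 / 3 * (X * Z) / lam k := by ring

theorem diff_bound {g : ℕ → ℝ} {n : ℕ} {X : ℝ} (hX : 0 ≤ X) (h : ∀ k ≤ n + 1, |g k| ≤ X / lam k)
    {j : ℕ} (hj : j ≤ n) : |g j - g (j + 1)| ≤ 2 * X / lam j := by
  have h1 := h j (by omega)
  have h2 := h (j + 1) (by omega)
  have h3 : X / lam (j + 1) ≤ X / lam j :=
    div_le_div_of_nonneg_left hX (lam_pos _) (lam_mono (by omega))
  have h4 := abs_sub (g j) (g (j + 1))
  have : 2 * X / lam j = X / lam j + X / lam j := by ring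
  rw [this]
  linarith

end RecDer

open RecDer in
theorem G_deriv_bound : ∃ C : ℝ, 0 ≤ C ∧ ∀ (n : ℕ) (y : ℕ → ℝ → ℝ) (a : ℝ), 0 ≤ a →
    (∀ j ≤ n, ContDiffAt ℝ 3 (y j) 0) →
    (∀ j < n, y j 0 ≤ y (j + 1) 0) →
    (∀ j ≤ n, |iteratedDeriv 1 (y j) 0| ≤ 2 * a) →
    (∀ j ≤ n, |iteratedDeriv 2 (y j) 0| ≤ 2 * a ^ 2) →
    (∀ j ≤ n, |iteratedDeriv 3 (y j) 0| ≤ 4 * a ^ 3) →
    ContDiffAt ℝ 3 (fun t => G n (fun j => y j t) 0) 0 ∧
    ∀ r : ℕ, 1 ≤ r → r ≤ 3 →
      |iteratedDeriv r (fun t => G n (fun j => y j t) 0) 0| ≤ C * a ^ r := by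
  obtain ⟨σ, hσ, hσb⟩ := sg_deriv_bound
  obtain ⟨c, hc⟩ : ∃ c, c = 288 * σ := ⟨_, rfl⟩
  have hc0 : 0 ≤ c := by rw [hc]; positivity
  obtain ⟨C1, hC1⟩ : ∃ C1, C1 = 2 * c := ⟨_, rfl⟩
  have hC10 : 0 ≤ C1 := by rw [hC1]; positivity
  obtain ⟨C2, hC2⟩ : ∃ C2, C2 = 2 * (c + 40 / 3 * (c * C1)) := ⟨_, rfl⟩
  have hC20 : 0 ≤ C2 := by rw [hC2]; positivity
  obtain ⟨C3, hC3⟩ : ∃ C3, C3 = 2 * (c + 20 * (c * C2) + 20 * (c * C1)) := ⟨_, rfl⟩
  have hC30 : 0 ≤ C3 := by rw [hC3]; positivity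
  refine ⟨10 / 3 * (C1 + C2 + C3), by positivity, ?_⟩
  intro n y a ha hy hmono h1 h2 h3
  refine ⟨G_contDiffAt n y hy 0, ?_⟩
  -- notation
  obtain ⟨g, hg⟩ : ∃ g : ℕ → ℕ → ℝ, ∀ r k, g r k =
      iteratedDeriv r (fun t => G n (fun j => y j t) k) 0 := ⟨_, fun _ _ => rfl⟩
  obtain ⟨S, hS⟩ : ∃ S : ℕ → ℕ → ℕ → ℝ, ∀ i k j, S i k j =
      iteratedDeriv i (fun t => Sk k (y j t)) 0 := ⟨_, fun _ _ _ => rfl⟩
  have hSb : ∀ i, 1 ≤ i → i ≤ 3 → ∀ k j, j ≤ n → |S i k j| ≤ c * a ^ i / lam k := by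
    intro i hi hi' k j hj
    rw [hS, hc]
    exact comp_bound hσ hσb k ha (hy j hj) (h1 j hj) (h2 j hj) (h3 j hj) hi hi'
  have hSz : ∀ i, 1 ≤ i → i ≤ 3 → ∀ k j, j ≤ n → 2 * lam k ≤ y j 0 → S i k j = 0 := by
    intro i hi hi' k j hj hh
    rw [hS]
    exact comp_zero k (hy j hj) hh hi hi'
  have hS0 : ∀ k j, S 0 k j = Sk k (y j 0) := by
    intro k j; rw [hS, iteratedDeriv_zero]
  have hgz : ∀ r, 1 ≤ r → g r (n + 1) = 0 := by
    intro r hr
    rw [hg]
    have : (fun t => G n (fun j => y j t) (n + 1)) = fun _ => (0 : ℝ) := by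
      funext t; exact G_gt _ (by omega)
    rw [this, iteratedDeriv_const]
    simp
  have hg0 : ∀ j ≤ n, g 0 j - g 0 (j + 1) = D n (fun j => y j 0) j := by
    intro j hj
    rw [hg, hg, iteratedDeriv_zero, iteratedDeriv_zero, G_succ _ hj]; ring
  have hiter : ∀ k ≤ n, ∀ r, 1 ≤ r → r ≤ 3 → g r k = g r (k + 1) -
      ∑ j ∈ Ioc k n, ∑ i ∈ range (r + 1), (r.choose i : ℝ) * S i k j *
        (g (r - i) j - g (r - i) (j + 1)) := by
    intro k hk r hr hr'
    rw [hg, G_iter n y hy hk hr hr', hg]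
    simp only [hg, hS]
  have hs : ∀ k j, j < n → S 0 k (j + 1) ≤ S 0 k j := by
    intro k j hj
    rw [hS0, hS0]; exact Sk_anti k (hmono j hj)
  have hs0 : ∀ k j, 0 ≤ S 0 k j := by
    intro k j; rw [hS0]; exact Sk_nonneg _ _
  have hs1 : ∀ k j, S 0 k j ≤ 1 := by
    intro k j; rw [hS0]; exact Sk_le_one _ _
  have hDb : ∀ k r, 1 ≤ r → r ≤ 3 →
      |∑ j ∈ Ioc k n, S r k j * (g 0 j - g 0 (j + 1))| ≤ c * a ^ r / lam k := by
    intro k r hr hr'
    have e : ∑ j ∈ Ioc k n, S r k j * (g 0 j - g 0 (j + 1)) =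
        ∑ j ∈ Ioc k n, S r k j * D n (fun j => y j 0) j := by
      apply sum_congr rfl
      intro j hj
      rw [hg0 j (mem_Ioc.1 hj).2]
    rw [e]
    refine sumD _ k _ (by have := lam_pos k; positivity) (fun j hj => hSb r hr hr' k j
      (mem_Ioc.1 hj).2) (fun j hj hh => hSz r hr hr' k j (mem_Ioc.1 hj).2 hh)
  -- order one
  have b1 : ∀ k ≤ n + 1, |g 1 k| ≤ C1 * a / lam k := by
    have := down n (g 1) (S 0) (c * a) (by positivity) (hgz 1 le_rfl) hs hs0 hs1 (by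
      intro k hk
      have e := hiter k hk 1 le_rfl (by norm_num)
      simp only [sum_range_succ, sum_range_zero, sum_add_distrib] at e
      norm_num at e
      rw [e]
      have e2 : g 1 (k + 1) - (∑ j ∈ Ioc k n, S 0 k j * (g 1 j - g 1 (j + 1)) +
          ∑ j ∈ Ioc k n, S 1 k j * (g 0 j - g 0 (j + 1))) -
          (g 1 (k + 1) - ∑ j ∈ Ioc k n, S 0 k j * (g 1 j - g 1 (j + 1))) =
          -∑ j ∈ Ioc k n, S 1 k j * (g 0 j - g 0 (j + 1)) := by ring
      rw [e2, abs_neg]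
      have := hDb k 1 le_rfl (by norm_num)
      rwa [pow_one] at this)
    intro k hk
    refine (this k hk).trans (le_of_eq ?_)
    rw [hC1]; ring
  -- order two
  have b2 : ∀ k ≤ n + 1, |g 2 k| ≤ C2 * a ^ 2 / lam k := by
    have := down n (g 2) (S 0) ((c + 40 / 3 * (c * C1)) * a ^ 2) (by positivity)
      (hgz 2 (by norm_num)) hs hs0 hs1 (by
      intro k hk
      have hk0 := lam_pos k
      have e := hiter k hk 2 (by norm_num) (by norm_num)
      simp only [sum_range_succ, sum_range_zero, sum_add_distrib] at e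
      have c1 : Nat.choose 2 1 = 2 := rfl
      have c2 : (2 - 1 : ℕ) = 1 := rfl
      simp only [Nat.choose_zero_right, c1, c2, Nat.choose_self, Nat.sub_zero, Nat.sub_self,
        Nat.cast_one, one_mul, Nat.cast_ofNat, sum_const_zero, zero_add] at e
      have e3 : ∑ j ∈ Ioc k n, 2 * S 1 k j * (g 1 j - g 1 (j + 1)) =
          2 * ∑ j ∈ Ioc k n, S 1 k j * (g 1 j - g 1 (j + 1)) := by
        rw [mul_sum]; apply sum_congr rfl; intro j _; ring
      rw [e3] at e
      have t1 := hDb k 2 (by norm_num) (by norm_num)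
      have t2 := sumG k (fun j => S 1 k j) (fun j => g 1 j - g 1 (j + 1)) (n := n)
        (X := c * a ^ 1) (Z := 2 * (C1 * a)) (by positivity) (by positivity)
        (fun j hj => hSb 1 le_rfl (by norm_num) k j (mem_Ioc.1 hj).2)
        (fun j hj => diff_bound (by positivity) b1 (mem_Ioc.1 hj).2)
      have e2 : g 2 k - (g 2 (k + 1) - ∑ j ∈ Ioc k n, S 0 k j * (g 2 j - g 2 (j + 1))) =
          -(2 * ∑ j ∈ Ioc k n, S 1 k j * (g 1 j - g 1 (j + 1))) +
          -∑ j ∈ Ioc k n, S 2 k j * (g 0 j - g 0 (j + 1)) := by rw [e]; ring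
      rw [e2]
      refine (abs_add_le _ _).trans ?_
      rw [abs_neg, abs_neg, abs_mul, abs_of_pos (by norm_num : (0:ℝ) < 2)]
      have e4 : (c + 40 / 3 * (c * C1)) * a ^ 2 / lam k =
        2 * (10 / 3 * (c * a ^ 1 * (2 * (C1 * a))) / lam k) + c * a ^ 2 / lam k := by ring
      rw [e4]
      linarith)
    intro k hk
    refine (this k hk).trans (le_of_eq ?_)
    rw [hC2]; ring
  -- order three
  have b3 : ∀ k ≤ n + 1, |g 3 k| ≤ C3 * a ^ 3 / lam k := by
    have := down n (g 3) (S 0) ((c + 20 * (c * C2) + 20 * (c * C1)) * a ^ 3) (by positivity)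
      (hgz 3 (by norm_num)) hs hs0 hs1 (by
      intro k hk
      have hk0 := lam_pos k
      have e := hiter k hk 3 (by norm_num) (by norm_num)
      simp only [sum_range_succ, sum_range_zero, sum_add_distrib] at e
      have c1 : Nat.choose 3 1 = 3 := rfl
      have c1' : Nat.choose 3 2 = 3 := rfl
      have c2 : (3 - 1 : ℕ) = 2 := rfl
      have c2' : (3 - 2 : ℕ) = 1 := rfl
      simp only [Nat.choose_zero_right, c1, c2, c1', c2', Nat.choose_self, Nat.sub_zero,
        Nat.sub_self, Nat.cast_one, one_mul, Nat.cast_ofNat, sum_const_zero, zero_add] at e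
      have e3 : ∑ j ∈ Ioc k n, 3 * S 1 k j * (g 2 j - g 2 (j + 1)) =
          3 * ∑ j ∈ Ioc k n, S 1 k j * (g 2 j - g 2 (j + 1)) := by
        rw [mul_sum]; apply sum_congr rfl; intro j _; ring
      have e3' : ∑ j ∈ Ioc k n, 3 * S 2 k j * (g 1 j - g 1 (j + 1)) =
          3 * ∑ j ∈ Ioc k n, S 2 k j * (g 1 j - g 1 (j + 1)) := by
        rw [mul_sum]; apply sum_congr rfl; intro j _; ring
      rw [e3, e3'] at e
      have t1 := hDb k 3 (by norm_num) (by norm_num)
      have t2 := sumG k (fun j => S 1 k j) (fun j => g 2 j - g 2 (j + 1)) (n := n)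
        (X := c * a ^ 1) (Z := 2 * (C2 * a ^ 2)) (by positivity) (by positivity)
        (fun j hj => hSb 1 le_rfl (by norm_num) k j (mem_Ioc.1 hj).2)
        (fun j hj => diff_bound (by positivity) b2 (mem_Ioc.1 hj).2)
      have t3 := sumG k (fun j => S 2 k j) (fun j => g 1 j - g 1 (j + 1)) (n := n)
        (X := c * a ^ 2) (Z := 2 * (C1 * a)) (by positivity) (by positivity)
        (fun j hj => hSb 2 (by norm_num) (by norm_num) k j (mem_Ioc.1 hj).2)
        (fun j hj => diff_bound (by positivity) b1 (mem_Ioc.1 hj).2)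
      have e2 : g 3 k - (g 3 (k + 1) - ∑ j ∈ Ioc k n, S 0 k j * (g 3 j - g 3 (j + 1))) =
          -(3 * ∑ j ∈ Ioc k n, S 1 k j * (g 2 j - g 2 (j + 1))) +
          -(3 * ∑ j ∈ Ioc k n, S 2 k j * (g 1 j - g 1 (j + 1))) +
          -∑ j ∈ Ioc k n, S 3 k j * (g 0 j - g 0 (j + 1)) := by rw [e]; ring
      rw [e2]
      refine (abs_add_le _ _).trans ?_
      have := abs_add_le (-(3 * ∑ j ∈ Ioc k n, S 1 k j * (g 2 j - g 2 (j + 1))))
        (-(3 * ∑ j ∈ Ioc k n, S 2 k j * (g 1 j - g 1 (j + 1))))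
      rw [abs_neg, abs_neg, abs_mul, abs_mul, abs_of_pos (by norm_num : (0:ℝ) < 3)] at this
      rw [abs_neg (∑ j ∈ Ioc k n, S 3 k j * (g 0 j - g 0 (j + 1)))]
      have e4 : (c + 20 * (c * C2) + 20 * (c * C1)) * a ^ 3 / lam k =
        3 * (10 / 3 * (c * a ^ 1 * (2 * (C2 * a ^ 2))) / lam k) +
        3 * (10 / 3 * (c * a ^ 2 * (2 * (C1 * a))) / lam k) + c * a ^ 3 / lam k := by ring
      rw [e4]
      linarith)
    intro k hk
    refine (this k hk).trans (le_of_eq ?_)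
    rw [hC3]; ring
  intro r hr hr'
  rw [← hg]
  have l0 := lam_zero
  interval_cases r
  · refine (b1 0 (by omega)).trans ?_
    rw [l0]
    have : C1 * a / (3 / 10) = 10 / 3 * C1 * a ^ 1 := by ring
    rw [this]
    have := pow_nonneg ha 1
    gcongr
    linarith
  · refine (b2 0 (by omega)).trans ?_
    rw [l0]
    have : C2 * a ^ 2 / (3 / 10) = 10 / 3 * C2 * a ^ 2 := by ring
    rw [this]
    have := pow_nonneg ha 2
    gcongr
    linarith
  · refine (b3 0 (by omega)).trans ?_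
    rw [l0]
    have : C3 * a ^ 3 / (3 / 10) = 10 / 3 * C3 * a ^ 3 := by ring
    rw [this]
    have := pow_nonneg ha 3
    gcongr
    linarith

end Pool.Agent.US

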